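import Pool.Agent.Helper5.LCU.Stmts

/-!
# Project LCU, row LCZ

A log-concave sequence without internal zeros satisfies `c i * c (j + 2) ≤ c (i + 1) * c (j + 1)`
for all `i ≤ j`: induction on `j - i`.
-/

set_option autoImplicit false

namespace Pool.Agent.Helper99.LCU

open Pool.Agent.Helper5.LCU

theorem lcz_step (c : ℕ → ℝ) (h0 : ∀ m, 0 ≤ c m) (h1 : ∀ m, c m * c (m + 2) ≤ c (m + 1) ^ 2)
    (h2 : ∀ x y z, x < y → y < z → 0 < c x → 0 < c z → 0 < c y) (i : ℕ) :
    ∀ d : ℕ, c i * c (i + d + 2) ≤ c (i + 1) * c (i + d + 1)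
  | 0 => by
    have h := h1 i
    have e : c (i + 0 + 2) = c (i + 2) := rfl
    have e' : c (i + 0 + 1) = c (i + 1) := rfl
    rw [e, e']
    nlinarith
  | d + 1 => by
    have ih := lcz_step c h0 h1 h2 i d
    have k := h1 (i + d + 1)
    have e1 : i + (d + 1) + 2 = i + d + 1 + 2 := by ring
    have e2 : i + (d + 1) + 1 = i + d + 2 := by ring
    have e3 : i + d + 1 + 1 = i + d + 2 := by ring
    rw [e1, e2]
    rw [e3] at k
    have p1 := h0 i
    have p2 := h0 (i + 1)
    have p3 := h0 (i + d + 2)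
    have p4 := h0 (i + d + 1 + 2)
    rcases p1.eq_or_lt with hi | hi
    · rw [← hi, zero_mul]
      exact mul_nonneg p2 p3
    rcases p4.eq_or_lt with hz | hz
    · rw [← hz, mul_zero]
      exact mul_nonneg p2 p3
    have q : 0 < c (i + d + 1) := by
      by_cases hd : d = 0
      · subst hd
        exact h2 i (i + 0 + 1) (i + 0 + 1 + 2) (by omega) (by omega) hi hz
      · exact h2 i (i + d + 1) (i + d + 1 + 2) (by omega) (by omega) hi hz
    have m1 := mul_le_mul_of_nonneg_left k p1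
    have m2 := mul_le_mul_of_nonneg_right ih p3
    refine le_of_mul_le_mul_left (a := c (i + d + 1)) ?_ q
    nlinarith

/-- row LCZ -/
theorem st_LCZ : ST_LCZ := by
  intro c h0 h1 h2
  refine ⟨h0, fun i j hij => ?_⟩
  obtain ⟨d, rfl⟩ := Nat.exists_eq_add_of_le hij
  exact lcz_step c h0 h1 h2 i d

end Pool.Agent.Helper99.LCU
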